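import Mathlib
import Pool.Agent.K1H83.BD.Conv2

/-!
# The weak relative conjecture for products of `𝔾ₘ` and elliptic curves: failures in bounded degree

`Λ c`, `c = 1, …, q`, are pairs of periods `ω₁, ω₂` (independent over `ℝ`), with the lattices
`Ω_c = (Λ c).lattice = ℤ ω₁ + ℤ ω₂` and the elliptic curves `E_c = ℂ / Ω_c`, which are supposed to
be pairwise non-isogenous; `℘[L]`, `L.g₂`, `L.g₃` are Mathlib's Weierstrass function and invariants
of `L = Λ c`. Let `G = 𝔾ₘ^m × ∏ E_c^(n_c)`. A point `r` of the Lie algebra of `G` is a tuple `x` of `m`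
numbers together with tuples `p_c` of `n_c` numbers. The components of `exp_G r` generate the same
field, up to algebraic numbers, as the numbers `e^x` and `℘(p_c)`.

The situation of the problem: `K` is the field of algebraic numbers, and `W` is a `K`-space of finite
dimension, spanned by monomials in the periods of `G`; so `F = K(W)` is the field generated by the periods,
up to algebraic elements. `Generic` means that `d(exp_G r) = dim G`. This is no restriction, since a
point `r` with `d(exp_G r) < dim G` is a point of a product of the same kind (up to isogeny and up to the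
translation by an algebraic point), with a smaller dimension. We say that the inequality of the problem fails for
`r` in degree `δ` if any `dim G` of the `2 dim G` components of `r` and `exp_G r` satisfy a nontrivial
polynomial relation of degree at most `δ` with coefficients in `W`. Every failure is a failure in some
degree, for `W = F` (`fails_iff`).

Let `A : G → G'` be a surjective homomorphism to a group `G' = 𝔾ₘ^(e₀) × ∏ E_c^(e_c)`. If
`trdeg_F F(r, exp_G'(A r)) < dim G'` then we say that the inequality fails for `r` through `A`. In this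
case it fails for `r` and for the point `A r` of the Lie algebra of `G'` (`Through.fails`,
`Through.image`). The theorem says that all failures of degree at most `δ` with coordinates in a rational
vector space `V` of finite dimension are of this shape for finitely many homomorphisms `A`, and that only
finitely many points `A r` of the Lie algebras occur, modulo logarithms of algebraic points of `G'`. In
particular, there are only finitely many classes of minimal failures in `V`, in degree `δ`, modulo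
logarithms of algebraic points; minimal means that the inequality is true for all the images of `r` in
groups `G'` of smaller dimension.

The proof. Suppose that `r^(k)` is a sequence of failures of degree at most `δ`. Consider the homomorphisms
`a` to `𝔾ₘ` or `E_c` such that `a r^(k)` is constant modulo logarithms of algebraic points, for almost all
`k` with respect to an ultrafilter; they give a homomorphism `A : G → G'`, and the other coordinates are
given by some of the coordinates of `G`. By the theorem of the module `Pool.Agent.K1H83.BD.Seq2` (logarithmic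
differential forms on an ultraproduct; the theorem of Ax in a nonstandard situation) the ultraproducts of
the latter components of `exp_G r^(k)` are algebraically independent over a field which contains the
ultraproducts of the components of `r^(k)` and `exp_G'(A r^(k))`. The addition theorem is needed
to see that the last numbers belong to this field. Hence the defect comes from the numbers
`r^(k)`, `exp_G'(A r^(k))`.
-/

set_option autoImplicit false

open Module
open scoped PeriodPair

namespace Pool.Agent.Results.MP_4aec10_nt.BoundedDegreeFailures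

/-- the field `k = ℚ ⊗ End(ℂ / Ω)` as a subfield of `ℂ`; see `mem_k` -/
noncomputable abbrev k (L : PeriodPair) : IntermediateField ℚ ℂ := Pool.Agent.TH813.Ell.kL L

/-- `k` consists of the numbers `c` such that `n c` maps the lattice to itself for some `n > 0` -/
theorem mem_k {L : PeriodPair} {c : ℂ} :
    c ∈ k L ↔ ∃ n : ℕ, 0 < n ∧ ∀ w ∈ L.lattice, (n * c) * w ∈ L.lattice := Iff.rfl

/-- `v` is a logarithm of a number which is algebraic over the field `K` -/
def IsLog (K : IntermediateField ℚ ℂ) (v : ℂ) : Prop := IsAlgebraic K (Complex.exp v)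

/-- `v` is an elliptic logarithm of a point whose coordinates are algebraic over the field `K` -/
def IsEllipticLog (L : PeriodPair) (K : IntermediateField ℚ ℂ) (v : ℂ) : Prop :=
  v ∈ L.lattice ∨ IsAlgebraic K (℘[L] v)

/-- The curves `ℂ / Ω_c` are pairwise non-isogenous: there is no nonzero homomorphism from one to
another. -/
def NonIsog {q : ℕ} (Λ : Fin q → PeriodPair) : Prop :=
  ∀ c c', c ≠ c' → ∀ α : ℂ, (∀ w ∈ (Λ c).lattice, α * w ∈ (Λ c').lattice) → α = 0

/-- the components of the point `(x, p)` of the Lie algebra -/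
def lie {q m : ℕ} {n : Fin q → ℕ} (x : Fin m → ℂ) (p : ∀ c, Fin (n c) → ℂ) :
    Fin m ⊕ (Σ c, Fin (n c)) → ℂ :=
  Sum.elim x (fun j => p j.1 j.2)

/-- the components `e^x`, `℘(p_c)` of its image in `G = 𝔾ₘ^m × ∏ E_c^(n_c)` -/
noncomputable def expG {q : ℕ} (Λ : Fin q → PeriodPair) {m : ℕ} {n : Fin q → ℕ} (x : Fin m → ℂ)
    (p : ∀ c, Fin (n c) → ℂ) : Fin m ⊕ (Σ c, Fin (n c)) → ℂ :=
  Sum.elim (fun i => Complex.exp (x i)) (fun j => ℘[Λ j.1] (p j.1 j.2))

/-- The point `exp_G(x, p)` is not contained in a translate, by a point over the algebraic closure of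
`K`, of an algebraic subgroup `H ≠ G`: no nontrivial combination of the `x_j` with integral coefficients, or
of the coordinates of `p_c` with coefficients in `k_c`, is a logarithm of a point over the algebraic closure
of `K`. -/
def Generic (K : IntermediateField ℚ ℂ) {q : ℕ} (Λ : Fin q → PeriodPair) {m : ℕ} {n : Fin q → ℕ}
    (x : Fin m → ℂ) (p : ∀ c, Fin (n c) → ℂ) : Prop :=
  (∀ a : Fin m → ℤ, a ≠ 0 → ¬ IsLog K (∑ j, (a j : ℂ) * x j)) ∧
    ∀ c, ∀ a : Fin (n c) → ℂ, (∀ j, a j ∈ k (Λ c)) → a ≠ 0 →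
      ¬ IsEllipticLog (Λ c) K (∑ j, a j * p c j)

/-- The inequality fails for `r = (x, p)`: `trdeg_F F(r, exp_G r) < dim G`. -/
def Fails (K F : IntermediateField ℚ ℂ) {q : ℕ} (Λ : Fin q → PeriodPair) {m : ℕ} {n : Fin q → ℕ}
    (x : Fin m → ℂ) (p : ∀ c, Fin (n c) → ℂ) : Prop :=
  Generic K Λ x p ∧
    Algebra.trdeg F (IntermediateField.adjoin F (Set.range (Sum.elim (lie x p) (expG Λ x p)))) <
      ((m + ∑ c, n c : ℕ) : Cardinal)

/-- The inequality fails for `r = (x, p)` in degree `δ`: any `dim G` of the `2 dim G` components of `r` and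
`exp_G r` satisfy a nontrivial relation of degree at most `δ` with coefficients in `W`. -/
def FailsInDegree (K : IntermediateField ℚ ℂ) (W : Set ℂ) (δ : ℕ) {q : ℕ} (Λ : Fin q → PeriodPair)
    {m : ℕ} {n : Fin q → ℕ} (x : Fin m → ℂ) (p : ∀ c, Fin (n c) → ℂ) : Prop :=
  Generic K Λ x p ∧
    ∀ f : Fin (m + ∑ c, n c) → (Fin m ⊕ (Σ c, Fin (n c))) ⊕ (Fin m ⊕ (Σ c, Fin (n c))),
      Function.Injective f → ∃ P : MvPolynomial (Fin (m + ∑ c, n c)) ℂ,
        P ≠ 0 ∧ P.totalDegree ≤ δ ∧ (∀ μ, P.coeff μ ∈ W) ∧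
          MvPolynomial.eval (fun i => Sum.elim (lie x p) (expG Λ x p) (f i)) P = 0

/-- A surjective homomorphism from `𝔾ₘ^m × ∏ E_c^(n_c)` to a group `𝔾ₘ^(e₀) × ∏ E_c^(e_c)`, given by a matrix of
integers and matrices of endomorphisms of the curves `E_c`, all with independent rows. -/
structure Hom {q : ℕ} (Λ : Fin q → PeriodPair) (m : ℕ) (n : Fin q → ℕ) where
  /-- the number `e₀` -/
  e₀ : ℕ
  /-- the numbers `e_c` -/
  e : Fin q → ℕ
  /-- the matrix of integers -/
  A₀ : Fin e₀ → Fin m → ℤ
  /-- the matrices of endomorphisms -/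
  A : ∀ c, Fin (e c) → Fin (n c) → ℂ
  mul : ∀ c i j, ∀ w ∈ (Λ c).lattice, A c i j * w ∈ (Λ c).lattice
  ind₀ : LinearIndependent ℤ A₀
  ind : ∀ c, LinearIndependent (k (Λ c)) (A c)

namespace Hom

variable {q : ℕ} {Λ : Fin q → PeriodPair} {m : ℕ} {n : Fin q → ℕ} (A : Hom Λ m n)

/-- the dimension of the image `G'` -/
def dim : ℕ := A.e₀ + ∑ c, A.e c

/-- the map on the Lie algebras, first part -/
noncomputable def map₀ (x : Fin m → ℂ) : Fin A.e₀ → ℂ := fun i => ∑ j, (A.A₀ i j : ℂ) * x j

/-- the map on the Lie algebras, second part -/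
noncomputable def map (p : ∀ c, Fin (n c) → ℂ) : ∀ c, Fin (A.e c) → ℂ := fun c i =>
  ∑ j, A.A c i j * p c j

end Hom

/-- The inequality fails for `r = (x, p)` through `A : G → G'`:
`trdeg_F F(r, exp_G'(A r)) < dim G'`. -/
def Through (K F : IntermediateField ℚ ℂ) {q : ℕ} {Λ : Fin q → PeriodPair} {m : ℕ} {n : Fin q → ℕ}
    (A : Hom Λ m n) (x : Fin m → ℂ) (p : ∀ c, Fin (n c) → ℂ) : Prop :=
  Generic K Λ x p ∧ Algebra.trdeg F (IntermediateField.adjoin F
    (Set.range (Sum.elim (lie x p) (expG Λ (A.map₀ x) (A.map p))))) < (A.dim : Cardinal)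

/-- `r = (x, p)` is a minimal failure: the inequality fails for `r`, but not for the images of `r` in
groups of smaller dimension. -/
def Minimal (K F : IntermediateField ℚ ℂ) {q : ℕ} (Λ : Fin q → PeriodPair) {m : ℕ} {n : Fin q → ℕ}
    (x : Fin m → ℂ) (p : ∀ c, Fin (n c) → ℂ) : Prop :=
  Fails K F Λ x p ∧ ∀ A : Hom Λ m n, A.dim < m + ∑ c, n c → ¬ Fails K F Λ (A.map₀ x) (A.map p)

/-- the field `K(W)` -/
noncomputable def field (K : IntermediateField ℚ ℂ) (W : Submodule K ℂ) : IntermediateField ℚ ℂ :=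
  IntermediateField.adjoin ℚ ((K : Set ℂ) ∪ (W : Set ℂ))

section aux

open Pool.Agent.K1H83.BD

variable {q : ℕ} {Λ : Fin q → PeriodPair} {m : ℕ} {n : Fin q → ℕ}

theorem zG_eq (x : Fin m → ℂ) (p : ∀ c, Fin (n c) → ℂ) :
    zG Λ x p = Sum.elim (lie x p) (expG Λ x p) := rfl

theorem generic_iff {K : IntermediateField ℚ ℂ} {x : Fin m → ℂ} {p : ∀ c, Fin (n c) → ℂ} :
    Generic K Λ x p ↔ IndG K Λ x p := by
  constructor
  · rintro ⟨h1, h2⟩
    refine ⟨h1, fun c a ha => ?_⟩
    refine h2 c (fun j => (a j : ℂ)) (fun j => (a j).2) fun h => ha ?_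
    funext j
    exact Subtype.ext (congrFun h j)
  · rintro ⟨h1, h2⟩
    refine ⟨h1, fun c a hak ha => ?_⟩
    refine h2 c (fun j => ⟨a j, hak j⟩) fun h => ha ?_
    funext j
    exact congrArg Subtype.val (congrFun h j)

/-- the homomorphism of the helper files, as a homomorphism in the sense of this file -/
noncomputable def toHom (φ : Hm Λ m n) (hφ : φ.Good) : Hom Λ m n where
  e₀ := φ.e₀
  e := φ.e
  A₀ := φ.A₀
  A := fun c i j => (φ.A c i j : ℂ)
  mul := hφ.2.2
  ind₀ := by
    rw [Fintype.linearIndependent_iff]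
    intro g hg i
    have h1 := (Fintype.linearIndependent_iff.1 hφ.1) (fun i => (g i : ℚ)) (by
      funext j
      have h2 := congrArg (fun z : ℤ => (z : ℚ)) (congrFun hg j)
      simp only [Finset.sum_apply, Pi.smul_apply, smul_eq_mul, Pi.zero_apply, Int.cast_sum,
        Int.cast_mul, Int.cast_zero] at h2 ⊢
      exact h2) i
    exact_mod_cast h1
  ind := by
    intro c
    rw [Fintype.linearIndependent_iff]
    intro g hg i
    refine (Fintype.linearIndependent_iff.1 (hφ.2.1 c)) g ?_ i
    funext j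
    refine Subtype.ext ?_
    have h2 := congrFun hg j
    simp only [Finset.sum_apply, Pi.smul_apply, Pi.zero_apply] at h2 ⊢
    push_cast
    exact h2

/-- the converse -/
noncomputable def ofHom (A : Hom Λ m n) : Hm Λ m n where
  e₀ := A.e₀
  e := A.e
  A₀ := A.A₀
  A := fun c i j => ⟨A.A c i j, Pool.Agent.TH813.Ell.mult_mem_kL (A.mul c i j)⟩

theorem ofHom_good (A : Hom Λ m n) : (ofHom A).Good := by
  refine ⟨?_, fun c => ?_, A.mul⟩
  · have h1 := A.ind₀
    have h2 : LinearIndependent ℤ (fun i j => ((A.A₀ i j : ℤ) : ℚ)) := by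
      rw [Fintype.linearIndependent_iff] at h1 ⊢
      intro g hg i
      refine h1 g ?_ i
      funext j
      have h2 := congrFun hg j
      simp only [Finset.sum_apply, Pi.smul_apply, Pi.zero_apply] at h2 ⊢
      simp only [zsmul_eq_mul] at h2
      simp only [smul_eq_mul]
      exact_mod_cast h2
    exact (LinearIndependent.iff_fractionRing ℤ ℚ).1 h2
  · rw [Fintype.linearIndependent_iff]
    intro g hg i
    refine (Fintype.linearIndependent_iff.1 (A.ind c)) g ?_ i
    funext j
    have h2 := congrArg (fun z : k (Λ c) => (z : ℂ)) (congrFun hg j)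
    simp only [Finset.sum_apply, Pi.smul_apply, Pi.zero_apply] at h2 ⊢
    push_cast at h2
    exact h2

end aux

variable {q : ℕ} {Λ : Fin q → PeriodPair} {m : ℕ} {n : Fin q → ℕ}

/-- Every failure is a failure in some degree, and conversely. -/
theorem fails_iff (K F : IntermediateField ℚ ℂ) (x : Fin m → ℂ) (p : ∀ c, Fin (n c) → ℂ) :
    Fails K F Λ x p ↔ ∃ δ, FailsInDegree K (F : Set ℂ) δ Λ x p := by
  classical
  have h := Pool.Agent.K1H83.BD.rk_iff_rel F (Sum.elim (lie x p) (expG Λ x p)) (m + ∑ c, n c)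
  constructor
  · rintro ⟨h1, h2⟩
    rw [Pool.Agent.TH813.Rel.lt_iff] at h2
    obtain ⟨δ, hδ⟩ := h.1 h2
    exact ⟨δ, h1, hδ⟩
  · rintro ⟨δ, h1, hδ⟩
    refine ⟨h1, ?_⟩
    rw [Pool.Agent.TH813.Rel.lt_iff]
    exact h.2 ⟨δ, hδ⟩

/-- If the inequality fails for `r` through `A` then it fails for `r`. -/
theorem Through.fails {K F : IntermediateField ℚ ℂ} (h2 : ∀ c, IsAlgebraic F (Λ c).g₂)
    (h3 : ∀ c, IsAlgebraic F (Λ c).g₃) {A : Hom Λ m n} {x : Fin m → ℂ}
    {p : ∀ c, Fin (n c) → ℂ} (h : Through K F A x p) : Fails K F Λ x p :=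
  ⟨h.1, Pool.Agent.K1H83.BD.ThrG.fails h2 h3 (φ := ofHom A) (ofHom_good A) h.2⟩

/-- If the inequality fails for `r` through `A` then it fails for `A r`. -/
theorem Through.image {K F : IntermediateField ℚ ℂ} {A : Hom Λ m n} {x : Fin m → ℂ}
    {p : ∀ c, Fin (n c) → ℂ} (h : Through K F A x p) : Fails K F Λ (A.map₀ x) (A.map p) :=
  ⟨generic_iff.2 ((generic_iff.1 h.1).map (φ := ofHom A) (ofHom_good A)),
    Pool.Agent.K1H83.BD.ThrG.defect (φ := ofHom A) h.2⟩

/-- Let `Λ c` be the lattices of pairwise non-isogenous elliptic curves `E_c`, `K` a subfield of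
`ℂ` over which all `g₂` and `g₃` are algebraic, `W` a `K`-subspace of `ℂ` of finite dimension,
`F = K(W)`, `V` a rational subspace of `ℂ` of finite dimension, `m`, `n_c`, `δ` natural numbers,
`G = 𝔾ₘ^m × ∏ E_c^(n_c)`.

(1) There is a finite set of pairs `(A, s)`, where `A : G → G'` is a surjective homomorphism to a group
of the same kind and `s` a point of the Lie algebra of `G` with coordinates in `V` for which the inequality
fails through `A`, such that for all points `r` of the Lie algebra with coordinates in `V` for which the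
inequality fails in degree `δ` (with coefficients in `W`) the following is true for one of the pairs
`(A, s)`: the inequality fails for `r` through `A`, i.e. `trdeg_F F(r, exp_G'(A r)) < dim G'`, and the
coordinates of `A r - A s` are logarithms of points over the algebraic closure of `K`.

(2) There is a finite set `T` of points of the Lie algebra with coordinates in `V` such that for all
minimal failures `r` with coordinates in `V` for which the inequality fails in degree `δ`, and for some `t`
in `T`, the coordinates of `r - t` are logarithms of points over the algebraic closure of `K`. -/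
theorem result {q : ℕ} (Λ : Fin q → PeriodPair) (hΛ : NonIsog Λ) (K : IntermediateField ℚ ℂ)
    (h2 : ∀ c, IsAlgebraic K (Λ c).g₂) (h3 : ∀ c, IsAlgebraic K (Λ c).g₃) (W : Submodule K ℂ)
    (hW : FiniteDimensional K W) (V : Submodule ℚ ℂ) (hV : FiniteDimensional ℚ V) (m : ℕ)
    (n : Fin q → ℕ) (δ : ℕ) :
    (∃ Φ : Set (Hom Λ m n × (Fin m → ℂ) × (∀ c, Fin (n c) → ℂ)), Φ.Finite ∧
      (∀ φ ∈ Φ, (∀ i, φ.2.1 i ∈ V) ∧ (∀ c j, φ.2.2 c j ∈ V) ∧
        Through K (field K W) φ.1 φ.2.1 φ.2.2) ∧
      ∀ (x : Fin m → ℂ) (p : ∀ c, Fin (n c) → ℂ), (∀ i, x i ∈ V) → (∀ c j, p c j ∈ V) →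
        FailsInDegree K (W : Set ℂ) δ Λ x p → ∃ φ ∈ Φ, Through K (field K W) φ.1 x p ∧
          (∀ i, IsLog K (φ.1.map₀ x i - φ.1.map₀ φ.2.1 i)) ∧
          ∀ c i, IsEllipticLog (Λ c) K (φ.1.map p c i - φ.1.map φ.2.2 c i)) ∧
    ∃ T : Set ((Fin m → ℂ) × (∀ c, Fin (n c) → ℂ)), T.Finite ∧
      (∀ t ∈ T, (∀ i, t.1 i ∈ V) ∧ ∀ c j, t.2 c j ∈ V) ∧
      ∀ (x : Fin m → ℂ) (p : ∀ c, Fin (n c) → ℂ), (∀ i, x i ∈ V) → (∀ c j, p c j ∈ V) →
        FailsInDegree K (W : Set ℂ) δ Λ x p → Minimal K (field K W) Λ x p →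
        ∃ t ∈ T, (∀ i, IsLog K (x i - t.1 i)) ∧
          ∀ c j, IsEllipticLog (Λ c) K (p c j - t.2 c j) := by
  classical
  obtain ⟨Φ, hΦ, h4, h5⟩ := Pool.Agent.K1H83.BD.main6 K Λ h2 h3
    (fun c c' hc α hα => hΛ c c' hc α hα) V W δ m n
  refine ⟨?_, ?_⟩
  · have hfin := hΦ.to_subtype
    let g : Φ → Hom Λ m n × (Fin m → ℂ) × (∀ c, Fin (n c) → ℂ) := fun φ =>
      ⟨toHom φ.1.1 (h4 φ.1 φ.2).1, φ.1.2⟩
    refine ⟨Set.range g, Set.finite_range g, ?_, fun x p hx hp hf => ?_⟩
    · rintro _ ⟨φ, rfl⟩
      obtain ⟨a1, a2, a3, a4, a5⟩ := h4 φ.1 φ.2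
      exact ⟨a2, a3, generic_iff.2 a4, a5⟩
    · obtain ⟨φ, hφ, a1, a2, a3⟩ := h5 x p hx hp (generic_iff.1 hf.1) hf.2
      exact ⟨g ⟨φ, hφ⟩, ⟨_, rfl⟩, ⟨hf.1, a1⟩, a2, a3⟩
  · refine ⟨(fun φ => φ.2) '' Φ, hΦ.image _, ?_, fun x p hx hp hf hmin => ?_⟩
    · rintro _ ⟨φ, hφ, rfl⟩
      exact ⟨(h4 φ hφ).2.1, (h4 φ hφ).2.2.1⟩
    · obtain ⟨φ, hφ, a1, a2, a3⟩ := h5 x p hx hp (generic_iff.1 hf.1) hf.2
      have a4 : Through K (field K W) (toHom φ.1 (h4 φ hφ).1) x p := ⟨hf.1, a1⟩
      have a5 : φ.1.dim = m + ∑ c, n c := by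
        refine le_antisymm (Pool.Agent.K1H83.BD.dims_le (h4 φ hφ).1) (not_lt.1 fun hlt => ?_)
        exact hmin.2 (toHom φ.1 (h4 φ hφ).1) hlt a4.image
      exact ⟨φ.2, ⟨φ, hφ, rfl⟩, Pool.Agent.K1H83.BD.logs_of_sq h2 h3 (h4 φ hφ).1 a5 a2 a3⟩

end Pool.Agent.Results.MP_4aec10_nt.BoundedDegreeFailures
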