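import Mathlib
import Pool.Agent.K1H83.NS.Free
import Pool.Agent.K1H97.NS.Nx
import Pool.Agent.K1H37.NS.Add
import Pool.Agent.K1H8.NS.Dlog

/-!
# The weak relative conjecture for extensions of products of elliptic curves by tori, in bounded degree

`Λ c`, `c = 1, …, q`, are pairs of periods `ω₁, ω₂` (independent over `ℝ`), with the lattices
`Ω_c = (Λ c).lattice = ℤ ω₁ + ℤ ω₂` and the elliptic curves `E_c = ℂ / Ω_c`, which are supposed to
be pairwise non-isogenous; `℘[L]`, `L.g₂`, `L.g₃` are Mathlib's Weierstrass function and invariants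
of `L = Λ c`.

Let `A = ∏_j E_(ty j)`, `j ≤ n`. The extensions `G'` of `A` by the torus `𝔾ₘ^l` are given by `l` points
of the dual variety, which is again `A`, i.e. by numbers `Q i j` with `i ≤ l`, `j ≤ n` (modulo the
lattice of `E_(ty j)`), and the exponential map of `G'` is given, in the coordinates of a rational section,
by the elliptic functions of the `p_j` and by the functions `e^(y_i) ∏_j f_(Q i j)(p_j)`, where
`f_q(z) = σ(z+q)/(σ(z)σ(q)) e^(-ζ(q) z)` is Serre's function (`serre` below; `y` is the component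
of the logarithm in the Lie algebra of the torus, and `f_q = 1` if `q` is in the lattice). Every
semi-abelian variety whose abelian part is isogenous to a product of elliptic curves is
isogenous to some `G = 𝔾ₘ^m × G'`, such that `G'` is `Nonsplit`: no character of its torus, but 0,
gives an extension of `A` by `𝔾ₘ` which splits up to isogeny. The connected algebraic subgroups of
`G` which are maximal among the proper ones are then the preimages of the connected subgroups of
codimension one of `𝔾ₘ^m × A`: a subgroup `H` of `G` with image `𝔾ₘ^m × A` is equal to `G`, since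
otherwise a nontrivial character of the torus of `G'` extends to `G'`. They are given by an equation
`∑ aᵢ xᵢ = 0` with rational coefficients, or by an equation `∑ aⱼ pⱼ = 0` between the `pⱼ` which
belong to one curve `E_c`, with coefficients in `k_c = ℚ ⊗ End(E_c)`. The number `∑ aᵢ (xᵢ - sᵢ)`, or
`∑ aⱼ (pⱼ - sⱼ)`, is a logarithm of an algebraic point if and only if the point `exp_G (r - s)` is
contained in an algebraic translate `z + H`, `z ∈ G(ℚ̄)` (for any component of `s` in the Lie algebra
of the torus of `G'`).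

The theorem: let `V` be a rational vector space of finite dimension in `ℂ` and let a degree `δ` and
constants `w₁, …, w_t` (for instance the periods of `G`, also those of the third kind) be given. There
are finitely many pairs `(H, s)` of a subgroup `H` as above and a tuple `s` in `V` such that for all
`r = (x, p, y)` in `V^(m + n + l)` the following is true: `exp_G(r - s)` is contained in an algebraic
translate of `H` for one of the pairs `(H, s)`, or all relations of degree at most `δ` between `w`, the
components of `r` and the components of `exp_G r` are identities in the latter; so the inequality of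
the problem is true for `r` in degree `δ`, even over the field generated by `w` and `r`. Also the
quasi-logarithms `ζ(p)` are allowed in these relations. Instead of the field of algebraic numbers any
subfield `K` of `ℂ` is allowed, for instance the field `F` of the problem.

The proof extends that of `BoundedDegreeTranslates` (the case `l = 0`): if there are sequences of
tuples which escape all such families, then an ultraproduct of the relations gives an algebraic
relation over an internal field. A relation with constant coefficients between logarithmic forms is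
deduced; the forms of the third kind `dU/U - ∑ f'_q/f_q ω` of `G'` are additive, and by their residues and
multipliers they do not occur in the relation, if `G'` is nonsplit.
-/

set_option autoImplicit false

open scoped PeriodPair

namespace Pool.Agent.Results.MP_4aec10_nt.NonsplitTranslates

/-- The Weierstrass zeta function `ζ(z) = ∑ (1/(z-l) + 1/l + z/l²)`, the sum over the lattice (the
summand of `l = 0` is `1/z`, since `1/0 = 0` in Lean). -/
noncomputable def ζ (L : PeriodPair) (z : ℂ) : ℂ :=
  ∑' l : L.lattice, (1 / (z - l) + 1 / l + z / l ^ 2)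

/-- The Weierstrass sigma function `σ(z) = z ∏ (1 - z/l) exp(z/l + z²/(2l²))`, the product over the
lattice (the factor of `l = 0` is `1`, since `z/0 = 0` in Lean). -/
noncomputable def σ (L : PeriodPair) (z : ℂ) : ℂ :=
  z * ∏' l : L.lattice, ((1 - z / l) * Complex.exp (z / l + (z / l) ^ 2 / 2))

open Classical in
/-- Serre's function `f_q(z) = σ(z+q)/(σ(z)σ(q)) exp(-ζ(q) z)`; it is replaced by `1` if `q` is in the
lattice -/
noncomputable def serre (L : PeriodPair) (q z : ℂ) : ℂ :=
  if q ∈ L.lattice then 1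
  else σ L (z + q) / (σ L z * σ L q) * Complex.exp (-(ζ L q * z))

/-- the field `k = ℚ ⊗ End(ℂ / Ω)` as a subfield of `ℂ`; see `mem_k` -/
noncomputable abbrev k (L : PeriodPair) : IntermediateField ℚ ℂ := Pool.Agent.TH813.Ell.kL L

/-- `k` consists of the numbers `c` such that `n c` maps the lattice to itself for some `n > 0` -/
theorem mem_k {L : PeriodPair} {c : ℂ} :
    c ∈ k L ↔ ∃ n : ℕ, 0 < n ∧ ∀ w ∈ L.lattice, (n * c) * w ∈ L.lattice := Iff.rfl

/-- `v` is a logarithm of a number which is algebraic over the field `K` -/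
def IsLog (K : IntermediateField ℚ ℂ) (v : ℂ) : Prop := IsAlgebraic K (Complex.exp v)

/-- `v` is an elliptic logarithm of a point whose coordinates are algebraic over the field `K` -/
def IsEllipticLog (L : PeriodPair) (K : IntermediateField ℚ ℂ) (v : ℂ) : Prop :=
  v ∈ L.lattice ∨ IsAlgebraic K (℘[L] v)

/-- The curves `ℂ / Ω_c` are pairwise non-isogenous: there is no nonzero homomorphism from one to
another. -/
def NonIsog {q : ℕ} (Λ : Fin q → PeriodPair) : Prop :=
  ∀ c c', c ≠ c' → ∀ α : ℂ, (∀ w ∈ (Λ c).lattice, α * w ∈ (Λ c').lattice) → α = 0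

/-- No extension of `∏ E_(ty j)` by `𝔾ₘ` which is given by a nonzero rational combination `∑ mᵢ Q i`
of the `l` points `Q i` splits up to isogeny: one of the `n` components of this combination is not a
torsion point. -/
def Nonsplit {q : ℕ} (Λ : Fin q → PeriodPair) {n l : ℕ} (ty : Fin n → Fin q)
    (Q : Fin l → Fin n → ℂ) : Prop :=
  ∀ m : Fin l → ℚ, m ≠ 0 → ∃ j, ∀ N : ℕ, 0 < N →
    (N : ℂ) * ∑ i, (m i : ℂ) * Q i j ∉ (Λ (ty j)).lattice

/-- The components of `exp_G (x, p, y)` in the chart described above, and the numbers `ζ(p)`: the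
numbers `e^(x_i)`, `℘(p_j)`, `ζ(p_j)` and `e^(y_i) ∏_j f_(Q i j)(p_j)`. -/
noncomputable def expG {q : ℕ} (Λ : Fin q → PeriodPair) {m n l : ℕ} (ty : Fin n → Fin q)
    (Q : Fin l → Fin n → ℂ) (x : Fin m → ℂ) (p : Fin n → ℂ) (y : Fin l → ℂ) :
    (Fin m ⊕ (Fin n ⊕ Fin n)) ⊕ Fin l → ℂ :=
  Sum.elim (Sum.elim (fun i => Complex.exp (x i))
      (Sum.elim (fun j => ℘[Λ (ty j)] (p j)) (fun j => ζ (Λ (ty j)) (p j))))
    (fun i => Complex.exp (y i) * ∏ j, serre (Λ (ty j)) (Q i j) (p j))

/-- Every relation of degree at most `δ`, with coefficients algebraic over `K`, between the constants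
`w`, the numbers `x`, `p`, `y` and the numbers `expG` is an identity in the latter: it stays true if
these are replaced by arbitrary numbers. -/
def Free {q : ℕ} (Λ : Fin q → PeriodPair) (K : IntermediateField ℚ ℂ) (δ : ℕ) {t m n l : ℕ}
    (ty : Fin n → Fin q) (Q : Fin l → Fin n → ℂ) (w : Fin t → ℂ) (x : Fin m → ℂ) (p : Fin n → ℂ)
    (y : Fin l → ℂ) : Prop :=
  ∀ P : MvPolynomial ((Fin t ⊕ ((Fin m ⊕ Fin n) ⊕ Fin l)) ⊕
      ((Fin m ⊕ (Fin n ⊕ Fin n)) ⊕ Fin l)) ℂ,
    P.totalDegree ≤ δ → (∀ μ, IsAlgebraic K (P.coeff μ)) →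
    MvPolynomial.eval (Sum.elim (Sum.elim w (Sum.elim (Sum.elim x p) y))
      (expG Λ ty Q x p y)) P = 0 →
    ∀ z, MvPolynomial.eval (Sum.elim (Sum.elim w (Sum.elim (Sum.elim x p) y)) z) P = 0

open Pool.Agent.K1H83.BD Pool.Agent.K1H83.NS in
/-- Let `Λ c` be the lattices of pairwise non-isogenous elliptic curves `E_c`, `K` a subfield of
`ℂ` over which all `g₂` and `g₃` are algebraic, `m`, `n`, `l` natural numbers, and let a curve
`E_(ty j)` be assigned to every `j ≤ n`. Let `Q i j` be elliptic logarithms of points of `E_(ty j)`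
algebraic over `K`, `i ≤ l`, `j ≤ n`, such that the extension of `∏_j E_(ty j)` by `𝔾ₘ^l` given by
`Q` is nonsplit. Let `V` be a rational subspace of `ℂ` of finite dimension, `w₁, …, w_t` complex
numbers and `δ` a natural number. There are finitely many pairs `(a, s)`, `0 ≠ a ∈ ℚ^m`, `s ∈ V^m`,
and for every `c` finitely many pairs `(a, s)`, `0 ≠ a ∈ k_c^n`, `aⱼ = 0` for `ty j ≠ c`, `s ∈ V^n`,
such that for all `x ∈ V^m`, `p ∈ V^n` (`pⱼ` not in the lattice of `E_(ty j)`) and `y ∈ V^l`, for which
no number `∑ aᵢ (xᵢ - sᵢ)` is a logarithm of a number algebraic over `K` and no number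
`∑ aⱼ (pⱼ - sⱼ)` is an elliptic logarithm of a point of `E_c` algebraic over `K`: every relation of
degree at most `δ`, with coefficients algebraic over `K`, between the numbers `w`, `x`, `p`, `y` and
`e^(x_i)`, `℘(p_j)`, `ζ(p_j)`, `e^(y_i) ∏_j f_(Q i j)(p_j)` is an identity in the latter. -/
theorem result {q : ℕ} (Λ : Fin q → PeriodPair) (hΛ : NonIsog Λ) (K : IntermediateField ℚ ℂ)
    (h2 : ∀ c, IsAlgebraic K (Λ c).g₂) (h3 : ∀ c, IsAlgebraic K (Λ c).g₃)
    (m n l : ℕ) (ty : Fin n → Fin q) (Q : Fin l → Fin n → ℂ)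
    (hQ : ∀ i j, IsEllipticLog (Λ (ty j)) K (Q i j)) (hns : Nonsplit Λ ty Q)
    (V : Submodule ℚ ℂ) (hV : FiniteDimensional ℚ V) (t δ : ℕ) (w : Fin t → ℂ) :
    ∃ (S : Finset ((Fin m → ℚ) × (Fin m → ℂ))) (S' : Fin q → Finset ((Fin n → ℂ) × (Fin n → ℂ))),
      (∀ s ∈ S, s.1 ≠ 0 ∧ ∀ i, s.2 i ∈ V) ∧
      (∀ c, ∀ s ∈ S' c, s.1 ≠ 0 ∧ (∀ j, s.1 j ∈ k (Λ c)) ∧ (∀ j, ty j ≠ c → s.1 j = 0) ∧
        ∀ j, s.2 j ∈ V) ∧
      ∀ (x : Fin m → ℂ) (p : Fin n → ℂ) (y : Fin l → ℂ),
        (∀ i, x i ∈ V) → (∀ j, p j ∈ V) → (∀ i, y i ∈ V) → (∀ j, p j ∉ (Λ (ty j)).lattice) →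
        (∀ s ∈ S, ¬ IsLog K (∑ i, (s.1 i : ℂ) * (x i - s.2 i))) →
        (∀ c, ∀ s ∈ S' c, ¬ IsEllipticLog (Λ c) K (∑ j, s.1 j * (p j - s.2 j))) →
        Free Λ K δ ty Q w x p y := by
  obtain ⟨S, S', hS, hS', hm⟩ := main_freeG Pool.Agent.K1H97.NS.t_NX Pool.Agent.K1H37.NS.t_ADD
    Pool.Agent.K1H8.NS.t_DLOG K Λ h2 h3
    (fun c c' hc α hα => hΛ c c' hc α hα) V w δ (m := m) ty Q hQ hns
  refine ⟨S, S', hS, hS', fun x p y hx hp hy hl h4 h5 P hP hPK h0 z => ?_⟩
  have hz : ∀ j, Pool.Agent.W245.EB.zt (Λ (ty j)) (p j) = ζ (Λ (ty j)) (p j) := fun j =>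
    Pool.Agent.W245.EB.zt_of_notMem (hl j)
  rcases hm x p y hx hp hy hl with ⟨s, hs, h⟩ | ⟨c, s, hs, h⟩ | h
  · exact absurd h (h4 s hs)
  · exact absurd h (h5 c s hs)
  · refine h P hP hPK ?_ z
    refine Eq.trans ?_ h0
    congr 2
    funext i
    rcases i with i | ((i | (i | i)) | i)
    · rfl
    · rfl
    · rfl
    · exact hz i
    · rfl

end Pool.Agent.Results.MP_4aec10_nt.NonsplitTranslates
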